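import Pool.Agent.helper84.QI.Spec

/-!
# Project QI: NIN, infinite normal subgroups have finite index
-/

set_option autoImplicit false

namespace Pool.Agent.QI

theorem NIN : NIN_stmt := by
  intro G _ a b h N hN hinf
  by_contra hfi
  haveI := hN
  have hq : Infinite (G ⧸ N) := by
    by_contra hc
    rw [not_infinite_iff_finite] at hc
    exact hfi (Subgroup.finiteIndex_of_finite_quotient (H := N))
  refine hinf (h.fin.subset fun n hn => ?_)
  have hn1 : (QuotientGroup.mk' N) n = 1 := (QuotientGroup.eq_one_iff n).2 hn
  have hmap : (Subgroup.closure ({a, n⁻¹ * b * n} : Set G)).map (QuotientGroup.mk' N) = ⊤ := by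
    have e : (QuotientGroup.mk' N) (n⁻¹ * b * n) = (QuotientGroup.mk' N) b := by
      rw [map_mul, map_mul, map_inv, hn1, inv_one, one_mul, mul_one]
    rw [MonoidHom.map_closure, Set.image_pair, e, ← Set.image_pair, ← MonoidHom.map_closure, h.gen]
    exact Subgroup.map_top_of_surjective _ (QuotientGroup.mk'_surjective N)
  show (Subgroup.closure ({a, n⁻¹ * b * n} : Set G) : Set G).Infinite
  intro hfin
  have h1 := hfin.image (QuotientGroup.mk' N)
  rw [← Subgroup.coe_map, hmap, Subgroup.coe_top] at h1
  exact Set.infinite_univ h1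

end Pool.Agent.QI
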